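import Pool.Agent.U735.SM.Main

/-!
# Splitting of morphisms of Chow motives over algebraically closed fields (MP_a147f7_ag)

Let `K` be an algebraically closed extension of the algebraically closed field `k`, for instance of
the algebraic closure of the prime field, and let `ℓ` be a prime number different from the
characteristic.

**Q1 holds for `K` and `ℓ` if and only if it holds for `k` and `ℓ`**: every morphism of Chow motives
over `K` with injective `ℓ`-adic realisation splits if and only if every morphism of Chow motives
over `k` with injective `ℓ`-adic realisation splits; and this is the case if and only if over `k` the
`ℓ`-adic realisation reflects isomorphisms of Chow motives and `ℓ`-adic homological and numerical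
equivalence coincide. So Q1 for all `K` is equivalent to Q1 for the algebraic closures of `ℚ` and
of the fields with `p` elements. No conjecture is assumed.

`M : BaseMotives T` are the geometric motives over `k` with their Chow motives, realisation and
weights, `N : BaseMotives T` those over `K`; `B : BaseChangeData M N` is the base change, with the
known facts on the spreading out of motives, cycles and classes over smooth connected `k`-varieties;
`W` are the weights over `k`. The realisation has values in the derived category `T` of finite
dimensional vector spaces over `E`, where a morphism is a split monomorphism if and only if it is
injective on cohomology.

Proof. Let Q1 hold for `k`. The realisation is conservative on the geometric motives over `k`: by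
weights the first map of a complex of Chow motives with zero realisation is injective on
cohomology, so it splits. Then it is conservative over `K`: if `X` over `K` has zero realisation,
`X₀` is a spreading out over `p : U ⟶ k` and `Y₀` its dual, then `p_♯(Y₀ ⊗ X₀)` has zero realisation,
so it is zero, and so is the evaluation `Y₀ ⊗ X₀ ⟶ 𝟙` (library of helper435). Over `k` cycles with
non-zero class are split monomorphisms, so they are not numerically trivial, and the same holds over
`K` by the theorem of the fixed part (Deligne, library of helper435). Let `f : P ⟶ Q` be a morphism
of Chow motives over `K` with injective realisation. As homological equals numerical equivalence
there is `g` with `F(f) = F(f g f)`, so `F(f g) = 1`, so that `f g` is an isomorphism, and `f` splits.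
Conversely, base change is faithful, and `f` splits if and only if the third morphism of its
triangle is zero.
-/

set_option autoImplicit false
set_option linter.checkUnivs false

open CategoryTheory

universe v u v' u' w

namespace Pool.Agent.Results.MP_a147f7_ag.PrimeFieldsSuffice

open Pool.Agent.U735.CV Pool.Agent.U435.SP Pool.Agent.U735.SM

/-- Morphisms of Chow motives over `K` with injective realisation split if and only if this holds
over `k`, if and only if over `k` the realisation reflects isomorphisms of Chow motives and
homological and numerical equivalence coincide. -/
theorem result {E : Type w} [Field E] [CharZero E] (T : Coefficients.{v', u', w} E)
    (M N : BaseMotives.{v, u} T) (B : BaseChangeData M N) (W : Weights M.Chow M.F E) :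
    List.TFAE [ReflectsSplitMono N.Chow N.F, ReflectsSplitMono M.Chow M.F,
      ReflectsIso M.Chow M.F ∧ HomEqualsNum M.Chow M.F] :=
  tfae B W

end Pool.Agent.Results.MP_a147f7_ag.PrimeFieldsSuffice
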