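import Pool.Agent.U672.SF.Main

/-!
# Splitting of étale-injective morphisms of Chow motives

`k` is an algebraically closed field of characteristic zero and `D` the triangulated category of geometric
motives over `k` with rational coefficients, in the form of its standard properties (`MotiveFacts`); it
contains the category of Chow motives. `S` is the `ℓ`-adic étale homology. A Chow motive is *of abelian type* if
it is in the class `Pure D Curves`: if it can be obtained from the motives of smooth proper curves by
direct factors of sums, tensor products and Tate twists. For Chow motives of abelian type in
characteristic zero it is known that the morphisms which are injective on the étale homology split: they are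
finite-dimensional (Kimura), homological and numerical equivalence coincide for them (Lieberman), and the
category of numerical motives is semisimple (Jannsen). This known theorem is a hypothesis.

The *excess* of a system of polynomials is the sum of (number of terms - 2) over its members with at
least three terms.

**Theorem.** The same is true for all morphisms between Chow motives which are direct factors of sums of
Tate twists of products of the motives of smooth proper schemes `X`, of any dimension, which can be obtained from
the following schemes by cutting and pasting, products of affine schemes and quotients by finite
free coverings (`Constructed 1`):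
* the closed subschemes of affine spaces defined by a system `G` of excess at most two and polynomials `H`
  with any numbers of terms whose exponents are independent modulo the differences of the exponents
  of `G`; for instance all hypersurfaces with at most four terms, and all hypersurfaces with affinely
  independent exponents, singular or not;
* the schemes `∑ f_j (x_j) = g (y)`, where the `f_j` are polynomials in separate variables, each of them
  quasi-homogeneous in at most two variables or a trilinear form with a block of at most three
  variables, and `g` is a function on an affine scheme of dimension at most one;
* all schemes of dimension at most one;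
* all smooth proper schemes whose motives are of abelian type.
-/

set_option autoImplicit false

open CategoryTheory MonoidalCategory AlgebraicGeometry Pool.Agent.TH137.DG Pool.Agent.Y116.UV
  Pool.Agent.Z125.UN Pool.Agent.U672.SF

namespace Pool.Agent.Results.MP_a147f7_ag.SystemsOfFewTerms

universe v u w

/-- The smooth proper schemes of dimension at most one. -/
def Curves {k : Type} [Field k] (X : Sch k) : Prop :=
  SmoothProper X ∧ topologicalKrullDim X.left ≤ (1 : ℕ)

variable {k : Type} [Field k] {C : Type u} [Category.{v} C]
  [MonoidalCategory C] [SymmetricCategory C] [Preadditive C] [Linear ℚ C]
  [Limits.HasZeroObject C] [HasShift C ℤ] [∀ n : ℤ, (shiftFunctor C n).Additive]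
  [Pretriangulated C] {D : Motives k C}

/-- All morphisms between members of the class `P` which are injective on the étale homology split. -/
def Splitting {F : Type} [Field F] (S : Realization.{v, u, w} D F) (P : C → Prop) : Prop :=
  ∀ A B : C, P A → P B → ∀ f : A ⟶ B, (∀ n : ℤ, Function.Injective ((S.H n).map f).hom) →
    ∃ g : B ⟶ A, f ≫ g = 𝟙 A

lemma pure_trans {Y Z : Sch k → Prop} (h : ∀ X, Y X → Pure D Z (D.M X)) {A : C}
    (hA : Pure D Y A) : Pure D Z A := by
  induction hA with
  | gen X hX => exact h X hX
  | factor A B T i₁ i₂ p₁ p₂ h _ _ h1 h2 => exact Pure.factor A B T i₁ i₂ p₁ p₂ h h1 h2
  | tensor A B _ _ h1 h2 => exact Pure.tensor A B h1 h2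
  | twist A _ h => exact Pure.twist A h
  | untwist A _ h => exact Pure.untwist A h

/-- **Theorem.** Let `k` be algebraically closed of characteristic zero, and assume the splitting of the
injective morphisms between Chow motives of abelian type (this is known). Then the morphisms between the
Chow motives obtained from smooth proper schemes which are constructed from systems of equations of excess
at most two with further equations with independent exponents, schemes `∑ f_j (x_j) = g (y)` over curves,
schemes of dimension at most one and smooth proper schemes with motives of abelian type split if they are
injective on the étale homology. These Chow motives are of abelian type. -/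
theorem result [IsAlgClosed k] [CharZero k] (hD : MotiveFacts D) {F : Type} [Field F]
    (S : Realization.{v, u, w} D F) (known : Splitting S (Pure D Curves)) :
    (∀ A : C, Pure D (fun X => SmoothProper X ∧
      Constructed 1 (fun Y => SmoothProper Y ∧ Pure D Curves (D.M Y)) X) A → Pure D Curves A) ∧
    Splitting S (Pure D fun X => SmoothProper X ∧
      Constructed 1 (fun Y => SmoothProper Y ∧ Pure D Curves (D.M Y)) X) := by
  have key : ∀ A : C, Pure D (fun X => SmoothProper X ∧
      Constructed 1 (fun Y => SmoothProper Y ∧ Pure D Curves (D.M Y)) X) A → Pure D Curves A := by
    intro A hA
    refine pure_trans (fun X hX => ?_) hA
    exact pure_trans (fun Y hY => hY.2) (constructed_pure hD le_rfl (fun Y hY => hY.1)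
      (fun Y h1 h2 => ⟨h1, Pure.gen Y ⟨h1, h2⟩⟩) X hX.2 hX.1)
  exact ⟨key, fun A B hA hB f hf => known A B (key A hA) (key B hB) f hf⟩

end Pool.Agent.Results.MP_a147f7_ag.SystemsOfFewTerms
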